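import Pool.Agent.Helper37.Arb.Goals

/-! ARB: DETBLOCK, DETONE. -/

namespace Pool.Agent.Helper94.Arb

open Matrix Pool.Agent.Helper37.Arb

theorem single_eq_vec {m n : Type*} [DecidableEq m] [DecidableEq n] (i : m) (j : n) (c : ℝ) :
    Matrix.single i j c = vecMulVec (Pi.single i c) (Pi.single j 1) := by
  ext a b
  rw [vecMulVec_apply, Matrix.single_apply, Pi.single_apply, Pi.single_apply]
  by_cases h1 : i = a <;> by_cases h2 : j = b <;> simp [h1, h2, eq_comm]

theorem det_one_sub_vec {V : Type*} [Fintype V] [DecidableEq V] (h : V → ℝ) (q : V) :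
    (1 - vecMulVec h (Pi.single q (1 : ℝ)) : Matrix V V ℝ).det = 1 - h q := by
  have h1 : vecMulVec h (Pi.single q (1 : ℝ)) =
      (replicateCol Unit h * replicateRow Unit (Pi.single q (1 : ℝ)) : Matrix V V ℝ) := by
    rw [vecMulVec_eq Unit]
  rw [h1, det_one_sub_mul_comm, det_unique]
  simp [Matrix.mul_apply, Matrix.sub_apply, Pi.single_apply]

theorem detOne : GoalDetOne := by
  intro V _ _ A v q c h hA hh
  have h1 : A - Matrix.single v q c = A * (1 - vecMulVec h (Pi.single q (1 : ℝ))) := by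
    rw [mul_sub, mul_one, mul_vecMulVec, hh, single_eq_vec]
  rw [h1, det_mul, det_one_sub_vec]

theorem detBlock : GoalDetBlock := by
  intro V W _ _ _ _ A₁ A₂ v p w q c d h₁ h₂ hA₁ hA₂ hh₁ hh₂
  have h1 : Matrix.fromBlocks A₁ (-Matrix.single v q c) (-Matrix.single w p d) A₂ =
      Matrix.fromBlocks A₁ 0 0 A₂ *
        Matrix.fromBlocks 1 (-vecMulVec h₁ (Pi.single q (1 : ℝ)))
          (-vecMulVec h₂ (Pi.single p (1 : ℝ))) 1 := by
    rw [fromBlocks_multiply]
    simp only [Matrix.mul_one, add_zero, zero_add, Matrix.mul_neg, mul_vecMulVec,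
      hh₁, hh₂, Matrix.zero_mulVec, Matrix.zero_vecMulVec, neg_zero]
    rw [single_eq_vec v q c, single_eq_vec w p d]
  rw [h1, det_mul, det_fromBlocks_zero₂₁, det_fromBlocks_one₁₁]
  have h2 : (1 - -vecMulVec h₂ (Pi.single p (1 : ℝ)) * -vecMulVec h₁ (Pi.single q (1 : ℝ)) :
      Matrix W W ℝ) = 1 - vecMulVec (h₁ p • h₂) (Pi.single q (1 : ℝ)) := by
    rw [Matrix.neg_mul, Matrix.mul_neg, neg_neg, vecMulVec_mul_vecMulVec]
    congr 1
    ext a b
    rw [vecMulVec_apply, vecMulVec_apply]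
    simp only [single_one_dotProduct, Pi.smul_apply, smul_eq_mul]
    ring
  rw [h2, det_one_sub_vec]
  rfl

end Pool.Agent.Helper94.Arb
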